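import Mathlib

/-! Orbits of permutations under transpositions, and a counting lemma for states. -/

namespace Pool.Agent.H.MP_592c03_gt

open Finset Function Equiv

lemma card_le {α β : Type*} [Finite α] (r : α → α → Prop) (f : α → β) (hf : Surjective f)
    (h : ∀ a b, r a b → f a = f b) : Nat.card β ≤ Nat.card (Quot r) :=
  Nat.card_le_card_of_surjective (Quot.lift f h) fun y =>
    let ⟨x, hx⟩ := hf y; ⟨Quot.mk _ x, hx⟩

lemma card_lt {α β : Type*} [Finite α] (r : α → α → Prop) (f : α → β) (hf : Surjective f)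
    (h : ∀ a b, r a b → f a = f b) (x y : α) (hxy : f x = f y)
    (hn : Quot.mk r x ≠ Quot.mk r y) : Nat.card β + 1 ≤ Nat.card (Quot r) := by
  have hs : Surjective (Quot.lift f h) := fun y => let ⟨x, hx⟩ := hf y; ⟨Quot.mk _ x, hx⟩
  haveI : Finite β := Finite.of_surjective f hf
  haveI := Fintype.ofFinite β
  haveI := Fintype.ofFinite (Quot r)
  rw [Nat.card_eq_fintype_card, Nat.card_eq_fintype_card]
  exact Fintype.card_lt_of_surjective_not_injective _ hs fun hi => hn (hi hxy)

lemma card_add_edge {α : Type*} [Finite α] (r : α → α → Prop) (x y : α) :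
    Nat.card (Quot r) ≤ Nat.card (Quot fun a b => r a b ∨ (a = x ∧ b = y)) + 1 := by
  classical
  let φ : α → Quot r := fun a => if Quot.mk r a = Quot.mk r x then Quot.mk r y else Quot.mk r a
  have hφ : ∀ a b, (r a b ∨ (a = x ∧ b = y)) → φ a = φ b := by
    rintro a b (h | ⟨rfl, rfl⟩)
    · simp only [φ, Quot.sound h]
    · simp [φ]
  rw [← Finite.card_option]
  refine Nat.card_le_card_of_surjective
    (fun o => Option.elim o (Quot.mk r x) (Quot.lift φ hφ)) fun q => ?_
  obtain ⟨a, rfl⟩ := Quot.exists_rep q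
  by_cases h : Quot.mk r a = Quot.mk r x
  · exact ⟨none, h.symm⟩
  · exact ⟨some (Quot.mk _ a), by simp [φ, h]⟩

/-- Number of cycles (orbits) of a permutation. -/
noncomputable def cyc {X : Type*} (π : Perm X) : ℕ := Nat.card (Quot fun a b => π a = b)

variable {X : Type*} [Finite X] [DecidableEq X]

lemma cyc_swap_le (π : Perm X) (x y : X) : cyc (π * swap x y) ≤ cyc π + 1 := by
  refine (card_add_edge _ x y).trans (Nat.succ_le_succ (card_le _ (Quot.mk _)
    Quot.mk_surjective fun a b h => ?_))
  have e : Quot.mk (fun a b => (π * swap x y) a = b ∨ (a = x ∧ b = y)) x = Quot.mk _ y :=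
    Quot.sound (Or.inr ⟨rfl, rfl⟩)
  subst h
  by_cases hx : a = x
  · subst hx
    exact e.trans (Quot.sound (Or.inl (by simp)))
  by_cases hy : a = y
  · subst hy
    exact e.symm.trans (Quot.sound (Or.inl (by simp)))
  exact Quot.sound (Or.inl (by simp [swap_apply_of_ne_of_ne hx hy]))

lemma le_cyc_swap (π : Perm X) (x y : X) : cyc π ≤ cyc (π * swap x y) + 1 := by
  have := cyc_swap_le (π * swap x y) x y
  rwa [mul_assoc, swap_mul_self, mul_one] at this

lemma cyc_merge (π : Perm X) (x y : X)
    (hn : Quot.mk (fun a b => π a = b) x ≠ Quot.mk _ y) : cyc (π * swap x y) + 1 = cyc π := by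
  refine le_antisymm ?_ (le_cyc_swap π x y)
  set r' : X → X → Prop := fun a b => (π * swap x y) a = b
  have h0 : ∀ k : ℕ, Quot.mk (fun a b => π a = b) x = Quot.mk _ ((π ^ k) x) := by
    intro k
    induction k with
    | zero => rfl
    | succ k ih => exact ih.trans (Quot.sound (by simp [pow_succ']))
  have h1 : ∀ k : ℕ, Quot.mk r' ((π ^ (k + 1)) x) = Quot.mk r' (π x) := by
    intro k
    induction k with
    | zero => simp
    | succ k ih =>
      by_cases hx : (π ^ (k + 1)) x = x
      · rw [pow_succ', Perm.mul_apply, hx]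
      · have hy : (π ^ (k + 1)) x ≠ y := fun h => hn (h ▸ h0 (k + 1))
        refine Eq.trans (Quot.sound ?_).symm ih
        simp only [r', Perm.mul_apply, swap_apply_of_ne_of_ne hx hy]
        rw [pow_succ' π (k + 1), Perm.mul_apply]
  have h2 : Quot.mk r' x = Quot.mk r' (π x) := by
    have hp : 0 < orderOf π := orderOf_pos π
    have := h1 (orderOf π - 1)
    rwa [Nat.sub_add_cancel hp, pow_orderOf_eq_one, Perm.one_apply] at this
  have h3 : Quot.mk r' y = Quot.mk r' (π x) := Quot.sound (by simp [r'])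
  refine card_lt _ (Quot.mk r') Quot.mk_surjective (fun a b h => ?_) x y (h2.trans h3.symm) hn
  subst h
  by_cases hx : a = x
  · subst hx; exact h2
  by_cases hy : a = y
  · subst hy
    exact h3.trans (h2.symm.trans (Quot.sound (by simp [r'])))
  exact Quot.sound (by simp [r', swap_apply_of_ne_of_ne hx hy])

lemma cyc_le_card (π : Perm X) : cyc π ≤ Nat.card X :=
  Nat.card_le_card_of_surjective _ Quot.mk_surjective

variable {E W : Type*} [DecidableEq E]

/-- Flipping a crossing one of whose faces is untouched merges two loops. -/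
lemma merge_of_private (π : Finset E → Perm X) (x y : E → X) (lab : X → W)
    (hπ : ∀ T e, e ∉ T → π (insert e T) = π T * swap (x e) (y e))
    (h0 : ∀ z, lab (π ∅ z) = lab z) (hne : ∀ e, lab (x e) ≠ lab (y e))
    (T : Finset E) (e : E) (he : e ∉ T) (w : W) (hw : w = lab (x e) ∨ w = lab (y e))
    (hp : ∀ f ∈ T, lab (x f) ≠ w ∧ lab (y f) ≠ w) :
    cyc (π (insert e T)) + 1 = cyc (π T) := by
  have inv : ∀ T : Finset E, (∀ f ∈ T, lab (x f) ≠ w ∧ lab (y f) ≠ w) →
      ∀ z, (lab (π T z) = w ↔ lab z = w) := by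
    intro T
    induction T using Finset.induction_on with
    | empty => intro _ z; rw [h0]
    | insert f T hf ih =>
      intro h z
      rw [hπ T f hf, Perm.mul_apply, ih fun g hg => h g (mem_insert_of_mem hg)]
      obtain ⟨h1, h2⟩ := h f (mem_insert_self _ _)
      by_cases hx : z = x f
      · subst hx; simp [h1, h2]
      by_cases hy : z = y f
      · subst hy; simp [h1, h2]
      rw [swap_apply_of_ne_of_ne hx hy]
  rw [hπ T e he]
  refine cyc_merge _ _ _ fun h => ?_
  have := congrArg (Quot.lift (fun z => lab z = w) fun a b (hab : π T a = b) =>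
    propext (hab ▸ (inv T hp a).symm)) h
  simp only at this
  rcases hw with rfl | rfl
  · exact hne e (this.mp rfl).symm
  · exact hne e (this.mpr rfl)

/-- States of small defect that are not forests are rare. -/
lemma bad_cover [Fintype E] (l : Finset E → ℕ) (u v : E → W) (hub : W → Prop) (nb : E → Finset E)
    (h1 : ∀ T e, e ∉ T → l (insert e T) ≤ l T + 1)
    (h1' : ∀ T e, e ∉ T → l T ≤ l (insert e T) + 1)
    (h2 : ∀ T e, e ∉ T → ∀ w, (w = u e ∨ w = v e) → (∀ f ∈ T, u f ≠ w ∧ v f ≠ w) →
      l (insert e T) + 1 = l T)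
    (h3 : ∀ e, ∃ w, (w = u e ∨ w = v e) ∧ ¬ hub w)
    (h4 : ∀ e f, e ≠ f → ∃ w, (w = u e ∨ w = v e) ∧ u f ≠ w ∧ v f ≠ w)
    (h5 : ∀ e f w, (w = u e ∨ w = v e) → ¬ hub w → (u f = w ∨ v f = w) → f ∈ nb e)
    (j : ℕ) (T : Finset E) (hD : l ∅ + T.card ≤ l T + 2 * j) (hb : l T + T.card ≠ l ∅) :
    ∃ S : Finset E, S.card < j ∧ T ⊆ ((S.biUnion nb).biUnion nb).biUnion nb := by
  classical
  have self : ∀ e, e ∈ nb e := fun e => by
    obtain ⟨w, hw, hh⟩ := h3 e
    exact h5 e e w hw hh (hw.imp Eq.symm Eq.symm)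
  have sub : ∀ S : Finset E, S ⊆ S.biUnion nb := fun S e he => mem_biUnion.2 ⟨e, he, self e⟩
  have mono : ∀ A B : Finset E, Disjoint A B → l (A ∪ B) ≤ l A + B.card := by
    intro A B
    induction B using Finset.induction_on with
    | empty => simp
    | insert e B he ih =>
      intro hd
      rw [disjoint_insert_right] at hd
      have := h1 (A ∪ B) e (by simp [hd.1, he])
      have := ih hd.2
      rw [union_insert, card_insert_of_notMem he]
      omega
  -- adding an edge not near anything keeps goodness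
  have far : ∀ (A : Finset E) e, e ∉ A → (∀ f ∈ A, e ∉ nb f) → l (insert e A) + 1 = l A := by
    intro A e he hf
    obtain ⟨w, hw, hh⟩ := h3 e
    refine h2 A e he w hw fun f hfA => ⟨fun h => hf f hfA ?_, fun h => hf f hfA ?_⟩
    · exact h5 f e w (Or.inl h.symm) hh (hw.imp Eq.symm Eq.symm)
    · exact h5 f e w (Or.inr h.symm) hh (hw.imp Eq.symm Eq.symm)
  have farU : ∀ (A R : Finset E), Disjoint A R → (∀ e ∈ R, ∀ f ∈ A ∪ R, f ≠ e → e ∉ nb f) →
      l (A ∪ R) + R.card = l A := by
    intro A R
    induction R using Finset.induction_on with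
    | empty => simp
    | insert e R he ih =>
      intro hd hR
      rw [disjoint_insert_right] at hd
      have a1 := far (A ∪ R) e (by simp [hd.1, he]) fun f hf =>
        hR e (mem_insert_self _ _) f (by rw [union_insert]; exact mem_insert_of_mem hf)
          (by rintro rfl; simp [hd.1, he] at hf)
      have a2 := ih hd.2 fun g hg f hf => hR g (mem_insert_of_mem hg) f
        (by rw [union_insert]; exact mem_insert_of_mem hf)
      rw [union_insert, card_insert_of_notMem he]
      omega
  obtain ⟨G, hG, hmax⟩ := exists_max_image (T.powerset.filter fun G => l G + G.card = l ∅) card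
    ⟨∅, by simp⟩
  rw [mem_filter, mem_powerset] at hG
  have hnot : ∀ e ∈ T, e ∉ G → l (insert e G) + 1 ≠ l G := by
    intro e he heG h
    have := hmax (insert e G) (by
      rw [mem_filter, mem_powerset, card_insert_of_notMem heG]
      exact ⟨insert_subset he hG.1, by omega⟩)
    rw [card_insert_of_notMem heG] at this
    omega
  have hTG : T ⊆ G.biUnion nb := by
    intro e he
    by_cases heG : e ∈ G
    · exact sub G heG
    · by_contra hc
      exact hnot e he heG (far G e heG fun f hf h => hc (mem_biUnion.2 ⟨f, hf, h⟩))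
  have hGj : G.card ≤ j := by
    have := mono G (T \ G) disjoint_sdiff
    rw [union_sdiff_of_subset hG.1, card_sdiff_of_subset hG.1] at this
    have := card_le_card hG.1
    omega
  rcases hGj.lt_or_eq with hlt | heq
  · exact ⟨G, hlt, hTG.trans ((sub _).trans (sub _))⟩
  by_cases hs : ∃ a ∈ G, ∃ b ∈ G, b ≠ a ∧ a ∈ (nb b).biUnion nb
  · obtain ⟨a, ha, b, hb', hab, h⟩ := hs
    refine ⟨G.erase a, heq ▸ card_erase_lt_of_mem ha, hTG.trans (biUnion_subset_biUnion_of_subset_left _ ?_)⟩
    intro g hg
    by_cases hga : g = a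
    · subst hga
      obtain ⟨c, hc, hc'⟩ := mem_biUnion.1 h
      exact mem_biUnion.2 ⟨c, mem_biUnion.2 ⟨b, mem_erase.2 ⟨hab, hb'⟩, hc⟩, hc'⟩
    · exact sub _ (sub _ (mem_erase.2 ⟨hga, hg⟩))
  exfalso
  push Not at hs
  obtain ⟨e, he, heG⟩ : ∃ e ∈ T, e ∉ G := by
    by_contra hc
    push Not at hc
    exact hb (subset_antisymm hG.1 hc ▸ hG.2)
  obtain ⟨b, hbG, hbe⟩ := mem_biUnion.1 (hTG he)
  have hbe' : e ≠ b := by rintro rfl; exact heG hbG
  obtain ⟨w, hw, hw'⟩ := h4 e b hbe'
  have a1 := h2 {b} e (by simpa using hbe') w hw (by simpa using hw')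
  have a2 := far ∅ b (by simp) (by simp)
  have a3 := farU (insert e {b}) (G.erase b) (by simp [heG]) (by
    intro g hg f hf hfg hn
    rw [mem_erase] at hg
    simp only [mem_union, mem_insert, mem_singleton, mem_erase] at hf
    rcases hf with (rfl | rfl) | hf
    · exact hs g hg.2 b hbG hg.1.symm (mem_biUnion.2 ⟨f, hbe, hn⟩)
    · exact hs g hg.2 f hbG hfg (mem_biUnion.2 ⟨f, self f, hn⟩)
    · exact hs g hg.2 f hf.2 hfg (mem_biUnion.2 ⟨f, self f, hn⟩))
  have e1 : insert e {b} ∪ G.erase b = insert e G := by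
    rw [insert_union, ← insert_eq, insert_erase hbG]
  have a4 := card_erase_add_one hbG
  rw [e1] at a3
  refine hnot e he heG ?_
  have : (insert b ∅ : Finset E) = {b} := rfl
  rw [this] at a2
  omega

lemma cover_count [Fintype E] (nb : E → Finset E) (M : ℕ) (hM : ∀ e, (nb e).card ≤ M) (j : ℕ)
    (hN : 1 ≤ Fintype.card E) (B : Finset (Finset E))
    (hB : ∀ T ∈ B, ∃ S : Finset E, S.card < j ∧ T ⊆ ((S.biUnion nb).biUnion nb).biUnion nb) :
    B.card * Fintype.card E ≤ j * 2 ^ (j * M * M * M) * Fintype.card E ^ j := by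
  classical
  set N := Fintype.card E
  have hc : ∀ S : Finset E, (S.biUnion nb).card ≤ S.card * M := fun S =>
    card_biUnion_le_card_mul _ _ _ fun e _ => hM e
  have : B ⊆ (range j).biUnion fun i => (powersetCard i (univ : Finset E)).biUnion fun S =>
      (((S.biUnion nb).biUnion nb).biUnion nb).powerset := by
    intro T hT
    obtain ⟨S, h1, h2⟩ := hB T hT
    simp only [mem_biUnion, mem_range, mem_powersetCard, mem_powerset]
    exact ⟨S.card, h1, S, ⟨subset_univ _, rfl⟩, h2⟩
  have h2 := (card_le_card this).trans (card_biUnion_le_card_mul _ _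
    (N ^ (j - 1) * 2 ^ (j * M * M * M)) fun i hi => (card_biUnion_le_card_mul _ _
      (2 ^ (j * M * M * M)) fun S hS => by
        rw [card_powerset]
        refine Nat.pow_le_pow_right two_pos ((hc _).trans (Nat.mul_le_mul_right _
          ((hc _).trans (Nat.mul_le_mul_right _ ((hc _).trans (Nat.mul_le_mul_right _ ?_))))))
        rw [(mem_powersetCard.1 hS).2]
        exact (mem_range.1 hi).le).trans (Nat.mul_le_mul_right _ (by
          rw [card_powersetCard, card_univ]
          exact (Nat.choose_le_pow _ _).trans (Nat.pow_le_pow_right hN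
            (by have := mem_range.1 hi; omega)))))
  rw [card_range] at h2
  rcases j with _ | j
  · simp at h2; simp [h2]
  · calc B.card * N ≤ (j + 1) * (N ^ (j + 1 - 1) * 2 ^ ((j + 1) * M * M * M)) * N :=
          Nat.mul_le_mul_right _ h2
      _ = _ := by simp only [Nat.add_sub_cancel, pow_succ]; ring

end Pool.Agent.H.MP_592c03_gt
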