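import Pool.Agent.H.MP_592c03_gt.A

/-! Extreme coefficients of a state sum. -/

namespace Pool.Agent.H.MP_592c03_gt

open Finset Function LaurentPolynomial Filter Topology

variable {E : Type*} [DecidableEq E] [Fintype E]

/-- Abstract state sum. -/
noncomputable def Br (l : Finset E → ℕ) : LaurentPolynomial ℤ :=
  ∑ S : Finset E, T ((Fintype.card E : ℤ) - 2 * S.card) * (-T 2 - T (-2)) ^ (l S - 1)

lemma coeff_term (c e : ℤ) (a : ℕ) :
    (T c * (-T 2 - T (-2)) ^ a : LaurentPolynomial ℤ).coeff e =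
      ∑ i ∈ range (a + 1), if c + 2 * a - 4 * i = e then (-1) ^ a * (a.choose i : ℤ) else 0 := by
  have : (T c * (-T 2 - T (-2)) ^ a : LaurentPolynomial ℤ) =
      ∑ i ∈ range (a + 1), C ((-1) ^ a * (a.choose i : ℤ)) * T (c + 2 * a - 4 * i) := by
    rw [show (-T 2 - T (-2) : LaurentPolynomial ℤ) = (-1) * (T (-2) + T 2) by ring, mul_pow,
      add_pow, mul_sum, mul_sum]
    refine sum_congr rfl fun i hi => ?_
    have hi' : i ≤ a := Nat.lt_succ_iff.1 (mem_range.1 hi)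
    rw [T_pow, T_pow, show c + 2 * a - 4 * i = c + (i * (-2) + ((a - i : ℕ) : ℤ) * 2) by
      push_cast [hi']; ring, T_add, T_add]
    simp only [map_mul, map_pow, map_neg, map_one, map_natCast]
    ring
  rw [this]
  simp only [← single_eq_C_mul_T, AddMonoidAlgebra.coeff_sum, AddMonoidAlgebra.coeff_single,
    Finsupp.finset_sum_apply, Finsupp.single_apply]

lemma coeff_Br (l : Finset E → ℕ) (e : ℤ) : (Br l).coeff e = ∑ S : Finset E,
    ∑ i ∈ range (l S - 1 + 1), if (Fintype.card E : ℤ) - 2 * S.card + 2 * (l S - 1 : ℕ) - 4 * i = e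
      then (-1) ^ (l S - 1) * ((l S - 1).choose i : ℤ) else 0 := by
  simp only [Br, AddMonoidAlgebra.coeff_sum, Finsupp.finset_sum_apply, coeff_term]

lemma coeff_above (l : Finset E → ℕ) (h0 : ∀ S, 1 ≤ l S) (h1 : ∀ S, l S ≤ l ∅ + S.card) (e : ℤ)
    (he : (Fintype.card E : ℤ) + 2 * l ∅ - 2 < e) : (Br l).coeff e = 0 := by
  rw [coeff_Br]
  refine sum_eq_zero fun S _ => sum_eq_zero fun i _ => if_neg ?_
  have := h0 S
  have := h1 S
  omega

lemma coeff_top (l : Finset E → ℕ) (h0 : ∀ S, 1 ≤ l S) (h1 : ∀ S, l S ≤ l ∅ + S.card) (k : ℕ) :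
    (Br l).coeff ((Fintype.card E : ℤ) + 2 * l ∅ - 2 - 4 * k) = ∑ j ∈ range (k + 1),
      ∑ S : Finset E, if l ∅ + S.card = l S + 2 * j then
        (-1) ^ (l S - 1) * ((l S - 1).choose (k - j) : ℤ) else 0 := by
  rw [coeff_Br, sum_comm]
  refine sum_congr rfl fun S _ => ?_
  have a0 := h0 S
  have a1 := h1 S
  by_cases h : ∃ j ≤ k, l ∅ + S.card = l S + 2 * j
  · obtain ⟨j, hj, h⟩ := h
    rw [sum_eq_single (s := range (k + 1)) j (fun i _ hi => if_neg (by omega))
      (fun hh => absurd (mem_range.2 (by omega)) hh), if_pos h,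
      sum_eq_single (k - j) (fun i _ hi => if_neg (by omega)), if_pos (by omega)]
    intro hh
    rw [mem_range] at hh
    rw [Nat.choose_eq_zero_of_lt (by omega)]
    simp
  · push Not at h
    rw [sum_eq_zero fun i _ => if_neg fun hh => h (k - i) (by omega) (by omega),
      sum_eq_zero fun j hj => if_neg (h j (Nat.lt_succ_iff.1 (mem_range.1 hj)))]

lemma err_bound (l : Finset E → ℕ) (h0 : ∀ S, 1 ≤ l S) (h2 : ∀ S, l ∅ ≤ l S + S.card)
    (X : ℕ) (hX : ∀ S, l S ≤ X) (k j : ℕ) :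
    |(∑ S : Finset E, if l ∅ + S.card = l S + 2 * j then
        (-1) ^ (l S - 1) * ((l S - 1).choose (k - j) : ℤ) else 0) -
      (Fintype.card E).choose j * ((-1) ^ (l ∅ + j + 1) * ((l ∅ - j - 1).choose (k - j) : ℤ))| ≤
      (univ.filter fun S : Finset E => l ∅ + S.card ≤ l S + 2 * j ∧ l S + S.card ≠ l ∅).card *
        (2 * X ^ (k - j)) := by
  set b : ℤ := (-1) ^ (l ∅ + j + 1) * ((l ∅ - j - 1).choose (k - j) : ℤ) with hb
  have e1 : ((Fintype.card E).choose j : ℤ) * b = ∑ S : Finset E, if S.card = j then b else 0 := by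
    rw [← sum_filter, sum_const, nsmul_eq_mul, ← card_univ, ← card_powersetCard,
      powersetCard_eq_filter, powerset_univ]
  have hc : ∀ a ≤ X, |((a.choose (k - j) : ℕ) : ℤ)| ≤ X ^ (k - j) := fun a ha => by
    rw [abs_of_nonneg (by positivity)]
    exact_mod_cast (Nat.choose_le_pow _ _).trans (Nat.pow_le_pow_left ha _)
  rw [e1, ← sum_sub_distrib, ← nsmul_eq_mul, ← sum_const, sum_filter]
  refine (abs_sum_le_sum_abs _ _).trans (sum_le_sum fun S _ => ?_)
  have a0 := h0 S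
  have a2 := h2 S
  have a3 := hX S
  have a4 := hX ∅
  have hp : (0 : ℤ) ≤ X ^ (k - j) := by positivity
  by_cases h : l ∅ + S.card ≤ l S + 2 * j ∧ l S + S.card ≠ l ∅
  · rw [if_pos h]
    refine (abs_sub _ _).trans ?_
    rw [two_mul ((X : ℤ) ^ _)]
    refine add_le_add ?_ ?_
    · split_ifs
      · rw [abs_mul, abs_neg_one_pow, one_mul]; exact hc _ (by omega)
      · simpa using hp
    · split_ifs
      · rw [hb, abs_mul, abs_neg_one_pow, one_mul]; exact hc _ (by omega)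
      · simpa using hp
  · rw [if_neg h]
    by_cases hj : S.card = j
    · rw [if_pos hj, if_pos (by omega), hb, show l ∅ + j + 1 = (l S - 1) + 2 * (j + 1) by omega,
        show l ∅ - j - 1 = l S - 1 by omega, pow_add, pow_mul]
      simp
    · rw [if_neg hj, if_neg (by omega)]
      simp

lemma choose_lim (a : ℕ → ℕ) (α : ℝ) (h : Tendsto (fun m => (a m : ℝ) / m) atTop (𝓝 α)) (i : ℕ) :
    Tendsto (fun m => ((a m - i : ℕ) : ℝ) / m) atTop (𝓝 α) := by
  have h0 : Tendsto (fun m : ℕ => (i : ℝ) / m) atTop (𝓝 0) :=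
    tendsto_const_div_atTop_nhds_zero_nat _
  refine tendsto_of_tendsto_of_tendsto_of_le_of_le (by simpa using h.sub h0) h (fun m => ?_)
    fun m => ?_
  · simp only [← sub_div]
    gcongr
    have : a m ≤ (a m - i) + i := by omega
    have : (a m : ℝ) ≤ (a m - i : ℕ) + i := by exact_mod_cast this
    linarith
  · simp only
    gcongr
    omega

lemma choose_lim' (a : ℕ → ℕ) (α : ℝ) (h : Tendsto (fun m => (a m : ℝ) / m) atTop (𝓝 α)) (i : ℕ) :
    Tendsto (fun m => ((a m).choose i : ℝ) / (m : ℝ) ^ i) atTop (𝓝 (α ^ i / i.factorial)) := by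
  induction i with
  | zero => simp
  | succ i ih =>
    have := (ih.mul (choose_lim a α h i)).div_const ((i : ℝ) + 1)
    convert this using 2 with m
    · have e : (((a m).choose (i + 1) : ℕ) : ℝ) * (i + 1) = (a m).choose i * (a m - i : ℕ) := by
        exact_mod_cast Nat.choose_succ_right_eq (a m) i
      rw [div_mul_div_comm, ← e, pow_succ]
      field_simp
    · rw [Nat.factorial_succ]
      push_cast
      field_simp
      ring

lemma asym (N V : ℕ → ℕ) (ν v : ℝ) (hν : 0 < ν) (hN : Tendsto (fun m => (N m : ℝ) / m) atTop (𝓝 ν))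
    (hV : Tendsto (fun m => (V m : ℝ) / m) atTop (𝓝 v)) (c : ℕ → ℤ) (k : ℕ) (K : ℝ)
    (hc : ∀ᶠ m in atTop, |(c m : ℝ) - ∑ j ∈ range (k + 1), ((N m).choose j : ℝ) *
      ((-1) ^ (V m + j + 1) * ((V m - j - 1).choose (k - j) : ℝ))| * N m ≤ K * (N m : ℝ) ^ k) :
    Tendsto (fun m => |(c m : ℝ)| / (m : ℝ) ^ k) atTop (𝓝 (|v - ν| ^ k / k.factorial)) := by
  have h1 : Tendsto (fun m => ∑ j ∈ range (k + 1), (-1 : ℝ) ^ j *
      (((N m).choose j : ℝ) / (m : ℝ) ^ j * (((V m - j - 1).choose (k - j) : ℝ) / (m : ℝ) ^ (k - j))))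
      atTop (𝓝 (∑ j ∈ range (k + 1), (-1 : ℝ) ^ j * (ν ^ j / j.factorial *
        (v ^ (k - j) / (k - j).factorial)))) :=
    tendsto_finsetSum _ fun j _ => ((choose_lim' N ν hN j).mul (choose_lim' _ v
      (choose_lim _ _ (choose_lim _ _ hV j) 1) (k - j))).const_mul _
  have e1 : ∑ j ∈ range (k + 1), (-1 : ℝ) ^ j * (ν ^ j / j.factorial *
      (v ^ (k - j) / (k - j).factorial)) = (v - ν) ^ k / k.factorial := by
    rw [show v - ν = -ν + v by ring, add_pow, sum_div]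
    refine sum_congr rfl fun j hj => ?_
    rw [Nat.cast_choose ℝ (Nat.lt_succ_iff.1 (mem_range.1 hj)), neg_pow ν]
    field_simp
  rw [e1] at h1
  set d : ℕ → ℝ := fun m => (c m : ℝ) - ∑ j ∈ range (k + 1), ((N m).choose j : ℝ) *
      ((-1) ^ (V m + j + 1) * ((V m - j - 1).choose (k - j) : ℝ)) with hd
  have h2 : Tendsto (fun m => (-1 : ℝ) ^ (V m + 1) * d m / (m : ℝ) ^ k) atTop (𝓝 0) := by
    have h3 : Tendsto (fun m : ℕ => K * ((N m : ℝ) / m) ^ k / ((N m : ℝ) / m) * ((1 : ℝ) / m))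
        atTop (𝓝 (K * ν ^ k / ν * 0)) :=
      (((hN.pow k).const_mul K).div hN hν.ne').mul (tendsto_const_div_atTop_nhds_zero_nat _)
    rw [mul_zero] at h3
    refine squeeze_zero_norm' ?_ h3
    filter_upwards [hc, hN.eventually (lt_mem_nhds hν), eventually_gt_atTop 0] with m h hm h0
    have h0' : (0 : ℝ) < m := by exact_mod_cast h0
    have hNm : (0 : ℝ) < N m := by
      have := mul_pos hm h0'
      rwa [div_mul_cancel₀ _ h0'.ne'] at this
    rw [Real.norm_eq_abs, abs_div, abs_mul, abs_neg_one_pow, one_mul, abs_of_pos (pow_pos h0' k),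
      show K * ((N m : ℝ) / m) ^ k / ((N m : ℝ) / m) * ((1 : ℝ) / m) =
        K * (N m : ℝ) ^ k / N m / (m : ℝ) ^ k by rw [div_pow]; field_simp]
    gcongr
    rw [le_div_iff₀ hNm]
    exact h
  have h4 := (h1.add h2).abs
  rw [add_zero, abs_div, abs_pow, Nat.abs_cast] at h4
  refine h4.congr' ?_
  filter_upwards [eventually_gt_atTop 0] with m h0
  have h0' : (0 : ℝ) < m := by exact_mod_cast h0
  have : (∑ j ∈ range (k + 1), (-1 : ℝ) ^ j * (((N m).choose j : ℝ) / (m : ℝ) ^ j *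
      (((V m - j - 1).choose (k - j) : ℝ) / (m : ℝ) ^ (k - j)))) +
      (-1 : ℝ) ^ (V m + 1) * d m / (m : ℝ) ^ k = (-1 : ℝ) ^ (V m + 1) * c m / (m : ℝ) ^ k := by
    simp only [hd, mul_sub, sub_div, mul_sum, sum_div]
    rw [add_sub, sub_eq_iff_eq_add, add_comm, add_right_inj]
    refine sum_congr rfl fun j hj => ?_
    have hk : (m : ℝ) ^ k = (m : ℝ) ^ j * (m : ℝ) ^ (k - j) := by
      rw [← pow_add, Nat.add_sub_cancel' (Nat.lt_succ_iff.1 (mem_range.1 hj))]
    have hs : ((-1 : ℝ) ^ (V m + 1)) * (-1) ^ (V m + j + 1) = (-1) ^ j := by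
      rw [← pow_add, show V m + 1 + (V m + j + 1) = j + 2 * (V m + 1) by ring, pow_add, pow_mul]
      simp
    rw [hk, ← hs]
    field_simp
  rw [this, abs_div, abs_mul, abs_neg_one_pow, one_mul, abs_of_pos (pow_pos h0' k)]

/-- The combinatorial estimate for the top coefficients. -/
lemma top_est {W : Type*} (l : Finset E → ℕ) (u v : E → W) (hub : W → Prop) (nb : E → Finset E)
    (h0 : ∀ S, 1 ≤ l S)
    (h1 : ∀ T e, e ∉ T → l (insert e T) ≤ l T + 1)
    (h1' : ∀ T e, e ∉ T → l T ≤ l (insert e T) + 1)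
    (h2 : ∀ T e, e ∉ T → ∀ w, (w = u e ∨ w = v e) → (∀ f ∈ T, u f ≠ w ∧ v f ≠ w) →
      l (insert e T) + 1 = l T)
    (h3 : ∀ e, ∃ w, (w = u e ∨ w = v e) ∧ ¬ hub w)
    (h4 : ∀ e f, e ≠ f → ∃ w, (w = u e ∨ w = v e) ∧ u f ≠ w ∧ v f ≠ w)
    (h5 : ∀ e f w, (w = u e ∨ w = v e) → ¬ hub w → (u f = w ∨ v f = w) → f ∈ nb e)
    (M c : ℕ) (hM : ∀ e, (nb e).card ≤ M) (hN : 1 ≤ Fintype.card E)
    (hX : ∀ S, l S ≤ c * Fintype.card E) :
    (∀ e, (Fintype.card E : ℤ) + 2 * l ∅ - 2 < e → (Br l).coeff e = 0) ∧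
    (Br l).coeff ((Fintype.card E : ℤ) + 2 * l ∅ - 2) ≠ 0 ∧
    ∀ k : ℕ, |(((Br l).coeff ((Fintype.card E : ℤ) + 2 * l ∅ - 2 - 4 * k) : ℤ) : ℝ) -
      ∑ j ∈ range (k + 1), ((Fintype.card E).choose j : ℝ) *
        ((-1) ^ (l ∅ + j + 1) * ((l ∅ - j - 1).choose (k - j) : ℝ))| * Fintype.card E ≤
      (∑ j ∈ range (k + 1), (j * 2 ^ (j * M * M * M) * (2 * c ^ (k - j)) : ℝ)) *
        (Fintype.card E : ℝ) ^ k := by
  have m1 : ∀ S, l S ≤ l ∅ + S.card := by
    intro S
    induction S using Finset.induction_on with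
    | empty => simp
    | insert e S he ih => have := h1 S e he; rw [card_insert_of_notMem he]; omega
  have m2 : ∀ S, l ∅ ≤ l S + S.card := by
    intro S
    induction S using Finset.induction_on with
    | empty => simp
    | insert e S he ih => have := h1' S e he; rw [card_insert_of_notMem he]; omega
  have key : ∀ k : ℕ, |(((Br l).coeff ((Fintype.card E : ℤ) + 2 * l ∅ - 2 - 4 * k) : ℤ) : ℝ) -
      ∑ j ∈ range (k + 1), ((Fintype.card E).choose j : ℝ) *
        ((-1) ^ (l ∅ + j + 1) * ((l ∅ - j - 1).choose (k - j) : ℝ))| * Fintype.card E ≤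
      (∑ j ∈ range (k + 1), (j * 2 ^ (j * M * M * M) * (2 * c ^ (k - j)) : ℝ)) *
        (Fintype.card E : ℝ) ^ k := by
    intro k
    rw [coeff_top l h0 m1, Int.cast_sum, ← sum_sub_distrib, sum_mul]
    refine (mul_le_mul_of_nonneg_right (abs_sum_le_sum_abs _ _) (by positivity)).trans ?_
    rw [sum_mul]
    refine sum_le_sum fun j hj => ?_
    have a1 := err_bound l h0 m2 _ hX k j
    have a2 := cover_count nb M hM j hN (univ.filter fun S : Finset E =>
      l ∅ + S.card ≤ l S + 2 * j ∧ l S + S.card ≠ l ∅) fun S hS =>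
        bad_cover l u v hub nb h1 h1' h2 h3 h4 h5 j S (mem_filter.1 hS).2.1 (mem_filter.1 hS).2.2
    set B := (univ.filter fun S : Finset E =>
      l ∅ + S.card ≤ l S + 2 * j ∧ l S + S.card ≠ l ∅).card
    have a1' := (Int.cast_le (R := ℝ)).2 a1
    have a2' := (Nat.cast_le (α := ℝ)).2 a2
    push_cast at a1' a2' ⊢
    have hk : (Fintype.card E : ℝ) ^ k = (Fintype.card E : ℝ) ^ j * (Fintype.card E : ℝ) ^ (k - j) := by
      rw [← pow_add, Nat.add_sub_cancel' (Nat.lt_succ_iff.1 (mem_range.1 hj))]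
    calc _ ≤ (B * (2 * ((c : ℝ) * Fintype.card E) ^ (k - j))) * Fintype.card E := by gcongr
      _ = (B * Fintype.card E) * (2 * ((c : ℝ) * Fintype.card E) ^ (k - j)) := by ring
      _ ≤ (j * 2 ^ (j * M * M * M) * (Fintype.card E : ℝ) ^ j) *
        (2 * ((c : ℝ) * Fintype.card E) ^ (k - j)) := by gcongr
      _ = _ := by rw [hk, mul_pow]; ring
  refine ⟨coeff_above l h0 m1, fun h => ?_, key⟩
  have := key 0
  have hN' : (1 : ℝ) ≤ Fintype.card E := by exact_mod_cast hN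
  simp [h] at this
  linarith

end Pool.Agent.H.MP_592c03_gt
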